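import Pool.Agent.E8helper5.TBTree

/-!
MP_888150_co, Q1 (Henning, MacGillivray, Yang 2018): every tree of order `n ≥ 2`, and more generally
every connected graph `G` of order `n ≥ 2`, satisfies `γ_{b_2}(G) ≤ (2 n + 4) / 3`.

The definitions are in `Pool/Agent/E8helper5/TBTree.lean`:
* `Hears G f u v`: `f v > 0` and `d(u, v) ≤ f v`;
* `IsDominatingTwoBroadcast G f`: `f v ≤ diam G` for all `v`, and every vertex hears at least two
  distinct vertices;
* `cost f = ∑ v, f v`;
* `twoBroadcastNumber G`: the least cost of a dominating 2-broadcast.

Proof. Let `v_0, …, v_d` be a diametral path of a tree (a spanning tree of `G`) and `h_i` the depth of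
the branch at `v_i`; the tree has at least `d + 1 + ∑ h_i` vertices. A cut between `v_{e-1}` and `v_e`
is free if no branch reaches over it. The branch at `v_i` reaches over `2 h_i` consecutive cuts, `h_i`
of each parity. Walk from left to right along the free cuts and note every change of the parity:
the path is divided into `m` segments of odd length, and `2 ∑ h_i ≥ d + 1 - m`. The union of three
consecutive segments is the trace of a ball (radius: half the length, rounded down); so is the union
of two segments. Two layers of balls are used, one with the groups of segments `3, 3, 3, …`, the other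
with the groups `2, 3, 3, …` (with suitable groups at the right end). The intervals of the two layers
interleave, so all centres are different, and the radii add up to at most
`d + 1 - (m - 4) / 3 ≤ (2 n + 4) / 3`.
-/

set_option autoImplicit false

namespace Pool.Agent.Results.MP_888150_co.TwoBroadcastBoundH5

open Pool.Agent.E8helper5.TB

/-- Every connected graph `G` of order `n ≥ 2` (in particular every tree) has a dominating
2-broadcast of cost `γ_{b_2}(G)`, and `γ_{b_2}(G) ≤ (2 n + 4) / 3`. -/
theorem result {V : Type*} [Fintype V] (hn : 2 ≤ Fintype.card V) :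
    (∀ T : SimpleGraph V, T.IsTree →
      (∃ f : V → ℕ, IsDominatingTwoBroadcast T f ∧ cost f = twoBroadcastNumber T) ∧
        (twoBroadcastNumber T : ℚ) ≤ (2 * (Fintype.card V : ℚ) + 4) / 3) ∧
    (∀ G : SimpleGraph V, G.Connected →
      (∃ f : V → ℕ, IsDominatingTwoBroadcast G f ∧ cost f = twoBroadcastNumber G) ∧
        (twoBroadcastNumber G : ℚ) ≤ (2 * (Fintype.card V : ℚ) + 4) / 3) := by
  haveI : Nontrivial V := Fintype.one_lt_card_iff_nontrivial.mp (by omega)
  have key : ∀ G : SimpleGraph V, G.Connected →
      (∃ f : V → ℕ, IsDominatingTwoBroadcast G f ∧ cost f = twoBroadcastNumber G) ∧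
        (twoBroadcastNumber G : ℚ) ≤ (2 * (Fintype.card V : ℚ) + 4) / 3 := by
    intro G hG
    obtain ⟨h1, h2⟩ := twoBroadcastNumber_spec hG
    refine ⟨h1, ?_⟩
    rw [le_div_iff₀ (by norm_num)]
    have : ((3 * twoBroadcastNumber G : ℕ) : ℚ) ≤ ((2 * Fintype.card V + 4 : ℕ) : ℚ) := by
      exact_mod_cast h2
    push_cast at this
    linarith
  exact ⟨fun T hT => key T hT.connected, key⟩

end Pool.Agent.Results.MP_888150_co.TwoBroadcastBoundH5
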